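import Pool.Agent.V7H42.KR.Spec

set_option autoImplicit false

/-! MP_600e55_nt: finite residue field, cyclic quotient. -/

namespace Pool.Agent.V7H33.KR

open Pool.Agent.V7H42.KR ValuationSubring

/-- units with residue one lie in `T` -/
lemma ker_mem {F : Type} [Field F] {T : Subgroup Fˣ} {O : ValuationSubring F} (h : One T O)
    (u : O.unitGroup) (hu : O.unitGroupToResidueFieldUnits u = 1) : (u : Fˣ) ∈ T := by
  have h1 : u ∈ O.unitGroupToResidueFieldUnits.ker := hu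
  rw [ker_unitGroupToResidueFieldUnits, Subgroup.mem_comap] at h1
  have h2 : O.valuation (((u : Fˣ) : F) - 1) < 1 := by
    have h3 := (mem_principalUnitGroup_iff O (u : Fˣ)).1 h1
    exact h3
  obtain ⟨y, hy⟩ : ∃ y : F, y = ((u : Fˣ) : F) - 1 := ⟨_, rfl⟩
  rw [← hy] at h2
  by_cases hy0 : y = 0
  · have h3 : (u : Fˣ) = 1 := by
      ext
      have : ((u : Fˣ) : F) = y + 1 := by rw [hy]; ring
      rw [this, hy0, zero_add, Units.val_one]
    rw [h3]
    exact T.one_mem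
  · have h3 : y ∈ O := (O.valuation_le_one_iff y).1 h2.le
    have h4 : y⁻¹ ∉ O := by
      intro h5
      have h6 := (O.valuation_le_one_iff y⁻¹).2 h5
      rw [map_inv₀] at h6
      have h7 : 0 < O.valuation y := zero_lt_iff.2 ((map_ne_zero _).2 hy0)
      rw [inv_le_one₀ h7] at h6
      exact absurd h2 (not_lt.2 h6)
    obtain ⟨t, ht, ht'⟩ := h y h3 h4
    have h5 : (u : Fˣ) = t := by
      ext
      rw [ht', hy]
      ring
    rw [h5]
    exact ht

theorem t_CYC : S_CYC := by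
  intro F _ T O hO hc hfin
  obtain ⟨γ, hγ⟩ := IsCyclic.exists_monoid_generator (α := (IsLocalRing.ResidueField O)ˣ)
  obtain ⟨u0, hu0⟩ := surjective_unitGroupToResidueFieldUnits O γ
  refine ⟨((u0 : Fˣ) : Fˣ ⧸ T), fun c => ?_⟩
  obtain ⟨u, hu, huc⟩ := hc c
  obtain ⟨k, hk⟩ := hγ (O.unitGroupToResidueFieldUnits ⟨u, hu⟩)
  refine ⟨k, ?_⟩
  have h1 : O.unitGroupToResidueFieldUnits ((u0 ^ k)⁻¹ * ⟨u, hu⟩) = 1 := by
    rw [map_mul, map_inv, map_pow, hu0, ← hk, inv_mul_cancel]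
  have h2 := ker_mem hO _ h1
  rw [← huc, ← QuotientGroup.mk_pow, eq_comm, QuotientGroup.eq]
  exact h2

end Pool.Agent.V7H33.KR
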